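import Pool.Agent.Lib.MP_f8e628_co.LLL

/-! The local lemma for independent variables, and counting in a grid. -/

open Finset

namespace Pool.Agent.Lib.MP_ccffa6_gt

open Pool.Agent.Lib.MP_f8e628_co

theorem l_sum_update {Q G : Type} [Fintype Q] [DecidableEq Q] [Fintype G] (j : Q)
    (f : (Q → G) → ℝ) : ∑ w, ∑ g, f (Function.update w j g) = Fintype.card G * ∑ w, f w := by
  have h : Function.Involutive fun z : (Q → G) × G => (Function.update z.1 j z.2, z.1 j) :=
    fun z => by simp
  rw [← Fintype.sum_prod_type' (f := fun w g => f (Function.update w j g))]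
  refine (Equiv.sum_comp h.toPerm fun z => f z.1).trans ?_
  rw [Fintype.sum_prod_type, mul_sum]
  simp

/-- Every bad event `A p` can be repaired by its own variable with probability `1 - P`, and the
variable `p` is seen by at most `d` events. -/
theorem l_var {Q G : Type} [Fintype Q] [DecidableEq Q] [Fintype G] [Nonempty G]
    (A : Q → (Q → G) → Prop) (Γ : Q → Finset Q) {d P : ℝ} (hd : ∀ p, ((Γ p).card : ℝ) ≤ d)
    (hd1 : 1 ≤ d) (hP : 0 ≤ P) (h4 : 4 * P * d ≤ 1)
    (dep : ∀ p q, q ∉ Γ p → ∀ w g, A q (Function.update w p g) ↔ A q w)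
    (cnt : ∀ p w, ∑ g, ind (A p (Function.update w p g)) ≤ P * Fintype.card G) :
    ∃ w, ∀ p, ¬A p w := by
  have hΩ : (0 : ℝ) < Fintype.card (Q → G) := by exact_mod_cast Fintype.card_pos
  have hG : (0 : ℝ) < Fintype.card G := by exact_mod_cast Fintype.card_pos
  obtain ⟨w, -, h⟩ := lll (fun _ : Q → G => 1 / (Fintype.card (Q → G) : ℝ))
    (fun _ => by positivity) (by rw [sum_const, card_univ, nsmul_eq_mul]; field_simp) A Γ d P hd
    hd1 hP h4 fun j S hS => by
      unfold mass
      rw [← mul_sum, ← mul_sum, mul_left_comm]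
      refine mul_le_mul_of_nonneg_left (le_of_mul_le_mul_left ?_ hG) (by positivity)
      rw [← l_sum_update j, ← mul_assoc, mul_sum]
      refine sum_le_sum fun w _ => ?_
      have e : ∀ g, ind (A j (Function.update w j g) ∧ ∀ i ∈ S, ¬A i (Function.update w j g)) =
          ind (A j (Function.update w j g)) * ind (∀ i ∈ S, ¬A i w) := fun g => by
        rw [ind_and]
        congr 1
        exact ind_congr (forall₂_congr fun i hi => not_congr (dep j i (hS i hi) w g))
      simp only [e]
      rw [← sum_mul, mul_comm (Fintype.card G : ℝ)]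
      exact mul_le_mul_of_nonneg_right (cnt j w) (ind_nonneg _)
  exact ⟨w, h⟩

/-- Grid points which are almost determined by their coordinates outside `I`. -/
theorem l_grid {D M N : ℕ} (I : Finset (Fin D)) (S : Finset (Fin D → Fin M))
    (h : ∀ g ∈ S, ∀ g' ∈ S, (∀ i, i ∉ I → g i = g' i) → ∀ i, |((g i : ℕ) : ℝ) - (g' i : ℕ)| < N) :
    S.card * M ^ I.card ≤ N ^ I.card * M ^ D := by
  rcases S.eq_empty_or_nonempty with rfl | ⟨g₀, h₀⟩
  · simp
  have h1 : S.card ≤ (Fintype.piFinset fun i => if i ∈ I then range N else range M).card := by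
    refine card_le_card_of_injOn (fun g i => if i ∈ I then (g i : ℕ) % N else g i)
      (fun g _ => ?_) fun g hg g' hg' e => ?_
    · refine mem_coe.2 (Fintype.mem_piFinset.2 fun i => ?_)
      have hN : 0 < N := by simpa using h g₀ h₀ g₀ h₀ (fun _ _ => rfl) i
      dsimp only
      split_ifs
      · exact mem_range.2 (Nat.mod_lt _ hN)
      · exact mem_range.2 (g i).2
    · have e1 : ∀ i, i ∉ I → g i = g' i := fun i hi => by
        have := congrFun e i
        simp only [hi, if_false] at this
        exact Fin.ext this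
      funext i
      by_cases hi : i ∈ I
      · have e2 := congrFun e i
        simp only [hi, if_true] at e2
        have e3 : |((g i : ℕ) : ℤ) - (g' i : ℕ)| < N := by exact_mod_cast h g hg g' hg' e1 i
        have e4 := Int.eq_zero_of_abs_lt_dvd (Nat.modEq_iff_dvd.1 (Nat.ModEq.symm e2)) e3
        exact Fin.ext (by omega)
      · exact e1 i hi
  rw [Fintype.card_piFinset] at h1
  simp only [apply_ite card, card_range, prod_ite, prod_const, filter_mem_eq_inter,
    univ_inter] at h1
  have h2 : (univ.filter fun i => i ∉ I).card + I.card = D := by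
    have := card_filter_add_card_filter_not (s := (univ : Finset (Fin D))) (fun i => i ∈ I)
    simp only [filter_mem_eq_inter, univ_inter, card_univ, Fintype.card_fin] at this
    omega
  calc S.card * M ^ I.card ≤ _ * M ^ I.card := Nat.mul_le_mul_right _ h1
    _ = _ := by rw [mul_assoc, ← pow_add, h2]

end Pool.Agent.Lib.MP_ccffa6_gt
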