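import Pool.Agent.Lib.MP_ccffa6_gt.L.Pack
import Pool.Agent.Lib.MP_ccffa6_gt.L.Var

/-! Uniform transversality from the local lemma. -/

open Finset

namespace Pool.Agent.Lib.MP_ccffa6_gt

open Pool.Agent.Lib.MP_f8e628_co

theorem l_const (A : ℕ) {C B : ℝ} (hC : 1 ≤ C) (hB : 1 ≤ B) : ∃ (R : ℝ) (M : ℕ), 1 ≤ R ∧
    B * R ^ A ≤ M ∧ 2 * C * C / (1 + R) ^ (A + 1) ≤ 1 / M := by
  let R : ℝ := 4 * C * C * B
  have h1 : 1 ≤ R := by
    have : 1 ≤ C * C := by nlinarith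
    have : 1 ≤ C * C * B := by nlinarith
    simp only [R]; nlinarith
  have h2 : 1 ≤ B * R ^ A := one_le_mul_of_one_le_of_one_le hB (one_le_pow₀ h1)
  refine ⟨R, ⌈B * R ^ A⌉₊, h1, Nat.le_ceil _, ?_⟩
  have h3 : (⌈B * R ^ A⌉₊ : ℝ) ≤ 2 * (B * R ^ A) := by
    linarith [Nat.ceil_lt_add_one (zero_le_one.trans h2)]
  rw [div_le_div_iff₀ (by positivity) (by linarith [Nat.le_ceil (B * R ^ A)]), one_mul]
  calc _ ≤ 2 * C * C * (2 * (B * R ^ A)) := mul_le_mul_of_nonneg_left h3 (by positivity)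
    _ = R ^ (A + 1) := by rw [pow_succ]; simp only [R]; ring
    _ ≤ _ := pow_le_pow_left₀ (by positivity) (by linarith) _

/-- The main lemma, no linearity: the jet at `x ∈ X p` is `b p x + ∑ q, Φ p x q (c q)`. -/
theorem l_core (D m A : ℕ) {C η₀ : ℝ} (hC : 1 ≤ C) (hη₀ : 0 < η₀) :
    ∃ η : ℝ, 0 < η ∧ η ≤ η₀ ∧ ∀ (Q : Type) [Fintype Q] (ρ : Q → Q → ℝ) (T : Type) (X : Q → Set T)
      (V : Type) [NormedAddCommGroup V] (b : Q → T → V) (Φ : Q → T → Q → (Fin D → ℝ) → V),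
      (∀ p q, 0 ≤ ρ p q) → (∀ p q, ρ p q = ρ q p) → (∀ p, ρ p p ≤ 1) →
      (∀ (p : Q) (t : ℝ), 1 ≤ t → ((univ.filter fun q => ρ q p ≤ t).card : ℝ) ≤ C * t ^ A) →
      (∀ p, ∀ x ∈ X p, ∀ q v, ‖v‖ ≤ 1 → ‖Φ p x q v‖ ≤ C / (1 + ρ q p) ^ (2 * A + 3)) →
      (∀ p, ∀ x ∈ X p, ∃ I : Finset (Fin D), I.card = m + 1 ∧ ∀ v v' : Fin D → ℝ, ‖v‖ ≤ 1 →
        ‖v'‖ ≤ 1 → (∀ i, i ∉ I → v i = v' i) → ‖v - v'‖ ≤ C * ‖Φ p x p v - Φ p x p v'‖) →
      (∀ p, ∃ s : Finset T, ↑s ⊆ X p ∧ (s.card : ℝ) ≤ C / η ^ m ∧ ∀ x ∈ X p, ∃ y ∈ s,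
        ∀ c : Q → Fin D → ℝ, (∀ q, ‖c q‖ ≤ 1) →
          ‖b p y + ∑ q, Φ p y q (c q)‖ ≤ ‖b p x + ∑ q, Φ p x q (c q)‖ + η) →
      ∃ c : Q → Fin D → ℝ, (∀ q, ‖c q‖ ≤ 1) ∧
        ∀ p, ∀ x ∈ X p, η ≤ ‖b p x + ∑ q, Φ p x q (c q)‖ := by
  classical
  have h7 : 1 ≤ (7 * C) ^ D := one_le_pow₀ (by linarith)
  have hCC : 1 ≤ C * C := by nlinarith
  obtain ⟨R, M, hR, hM, hT⟩ := l_const A (B := 4 * (C * C) * (7 * C) ^ D + 1 / η₀) hC
    (by nlinarith [one_div_pos.2 hη₀])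
  have hRA : 1 ≤ R ^ A := one_le_pow₀ hR
  have hM1 : 4 * (C * C) * (7 * C) ^ D * R ^ A ≤ M := by nlinarith [one_div_pos.2 hη₀]
  have hM2 : 1 / η₀ ≤ M := le_trans (le_trans (le_add_of_nonneg_left (by positivity))
    (le_mul_of_one_le_right (by positivity) hRA)) hM
  have hM0 : (0 : ℝ) < M := (one_div_pos.2 hη₀).trans_le hM2
  refine ⟨1 / M, by positivity, (one_div_le hM0 hη₀).2 hM2,
    fun Q _ ρ T X V _ b Φ h0 hs h1 hp ht hl hn => ?_⟩
  choose s hs1 hs2 hs3 using hn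
  have : Nonempty (Fin M) := ⟨⟨0, by exact_mod_cast hM0⟩⟩
  let e : (Fin D → Fin M) → Fin D → ℝ := fun g i => ((g i : ℕ) : ℝ) / M
  have he : ∀ g, ‖e g‖ ≤ 1 := fun g => (pi_norm_le_iff_of_nonneg zero_le_one).2 fun i => by
    rw [Real.norm_of_nonneg (by positivity), div_le_one hM0]
    exact_mod_cast (g i).2.le
  let tr : Q → T → (Q → Fin D → Fin M) → V := fun p y w =>
    b p y + ∑ q with ρ q p ≤ R, Φ p y q (e (w q))
  obtain ⟨w, hw⟩ := l_var (fun p w => ∃ y ∈ s p, ‖tr p y w‖ ≤ 3 / M)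
    (fun p => univ.filter fun q => ρ q p ≤ R) (d := C * R ^ A) (P := C * (7 * C) ^ D / M)
    (fun p => hp p R hR) (by nlinarith) (by positivity)
    (by rw [mul_div_assoc', div_mul_eq_mul_div, div_le_one hM0]; linarith)
    (fun p q hq w g => by
      have : ∀ y, tr q y (Function.update w p g) = tr q y w := fun y => by
        refine congrArg (b q y + ·) (sum_congr rfl fun q' hq' => ?_)
        rw [Function.update_of_ne]
        rintro rfl
        exact hq (mem_filter.2 ⟨mem_univ _, hs _ _ ▸ (mem_filter.1 hq').2⟩)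
      simp only [this])
    (fun p w => by
      have key : ∀ y ∈ s p, ((univ.filter fun g : Fin D → Fin M =>
          ‖tr p y (Function.update w p g)‖ ≤ 3 / M).card : ℝ) ≤
            (7 * C) ^ D * M ^ D / M ^ (m + 1) := fun y hy => by
        obtain ⟨I, hI, hL⟩ := hl p y (hs1 p hy)
        have hpp : p ∈ univ.filter fun q => ρ q p ≤ R := mem_filter.2 ⟨mem_univ _, (h1 p).trans hR⟩
        have hd : ∀ g g', tr p y (Function.update w p g) - tr p y (Function.update w p g') =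
            Φ p y p (e g) - Φ p y p (e g') := fun g g' => by
          rw [add_sub_add_left_eq_sub, ← sum_sub_distrib, sum_eq_single_of_mem p hpp]
          · simp
          · intro q _ hq
            simp [Function.update_of_ne hq]
        have hg := l_grid (N := ⌊6 * C⌋₊ + 1) I (univ.filter fun g : Fin D → Fin M =>
          ‖tr p y (Function.update w p g)‖ ≤ 3 / M) fun g hg g' hg' hh i => by
            have a1 := hL (e g) (e g') (he g) (he g') fun i hi => by simp only [e, hh i hi]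
            have a2 := norm_sub_le_of_le (mem_filter.1 hg).2 (mem_filter.1 hg').2
            rw [hd] at a2
            have a3 := (norm_le_pi_norm _ i).trans
              (a1.trans (mul_le_mul_of_nonneg_left a2 (by linarith)))
            rw [Pi.sub_apply, ← sub_div, norm_div, Real.norm_of_nonneg hM0.le, ← add_div,
              mul_div_assoc', div_le_div_iff_of_pos_right hM0, Real.norm_eq_abs] at a3
            push_cast
            linarith [Nat.lt_floor_add_one (6 * C)]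
        rw [le_div_iff₀ (by positivity), ← hI]
        have hg' := (Nat.cast_le (α := ℝ)).2 hg
        push_cast at hg'
        refine hg'.trans (mul_le_mul_of_nonneg_right ?_ (by positivity))
        refine (pow_le_pow_left₀ (b := 7 * C) (by positivity) ?_ _).trans
          (pow_le_pow_right₀ (by linarith) (by simpa using card_le_univ I))
        linarith [Nat.floor_le (show 0 ≤ 6 * C by linarith)]
      rw [sum_ind_eq_card]
      refine le_trans (Nat.cast_le.2 ((card_le_card (t := (s p).biUnion fun y =>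
        univ.filter fun g => ‖tr p y (Function.update w p g)‖ ≤ 3 / M) fun g hg => ?_).trans
          card_biUnion_le)) ?_
      · obtain ⟨y, hy, h⟩ := (mem_filter.1 hg).2
        exact mem_biUnion.2 ⟨y, hy, mem_filter.2 ⟨mem_univ _, h⟩⟩
      · rw [Nat.cast_sum]
        refine (sum_le_sum key).trans ?_
        rw [sum_const, nsmul_eq_mul]
        refine (mul_le_mul_of_nonneg_right (hs2 p) (by positivity)).trans (le_of_eq ?_)
        simp only [Fintype.card_fun, Fintype.card_fin, Nat.cast_pow, one_div, inv_pow]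
        field_simp
        ring)
  refine ⟨fun q => e (w q), fun q => he _, fun p x hx => ?_⟩
  obtain ⟨y, hy, h2⟩ := hs3 p x hx
  have h3 := h2 (fun q => e (w q)) fun q => he _
  have h4 : 3 / M < ‖tr p y w‖ := not_le.1 fun h => hw p ⟨y, hy, h⟩
  have h5 : ‖∑ q with ¬ρ q p ≤ R, Φ p y q (e (w q))‖ ≤ 1 / M := by
    refine le_trans ((norm_sum_le _ _).trans ?_) hT
    have a1 := l_sum_tail univ (fun q => ρ q p) (fun q _ => h0 q p) (hp p)
    calc _ ≤ ∑ q with ¬ρ q p ≤ R, C / (1 + R) ^ (A + 1) * (1 / (1 + ρ q p) ^ (A + 2)) := by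
          refine sum_le_sum fun q hq => (ht p y (hs1 p hy) q _ (he _)).trans ?_
          have a2 := (not_le.1 (mem_filter.1 hq).2).le
          have a3 := h0 q p
          rw [div_mul_div_comm, mul_one, show 2 * A + 3 = A + 1 + (A + 2) by ring, pow_add]
          gcongr
      _ ≤ ∑ q, C / (1 + R) ^ (A + 1) * (1 / (1 + ρ q p) ^ (A + 2)) :=
          sum_le_sum_of_subset_of_nonneg (filter_subset _ _) fun q _ _ => by
            have := h0 q p
            positivity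
      _ ≤ _ := by
          rw [← mul_sum]
          refine (mul_le_mul_of_nonneg_left a1 (by positivity)).trans (le_of_eq ?_)
          ring
  have h6 : tr p y w = b p y + ∑ q, Φ p y q (e (w q)) -
      ∑ q with ¬ρ q p ≤ R, Φ p y q (e (w q)) := by
    rw [← sum_filter_add_sum_filter_not univ (fun q => ρ q p ≤ R), ← add_assoc,
      add_sub_cancel_right]
  have h8 := norm_sub_le_of_le h3 h5
  rw [← h6] at h8
  have : (3 : ℝ) / M = 1 / M + 1 / M + 1 / M := by ring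
  linarith

/-- Centres `q : Q` carry `D` real coefficients `c q i ∈ [0, 1]`. At a test point `x ∈ X p` near
the centre `p` the jet is `b p x + ∑ q, L p x q (c q)`. If the test points have nets of
dimension `m` and the coefficients at `p` move the jet in `m + 1` directions, then some choice of
coefficients keeps all jets away from zero. The bound `η` depends on `D m A C η₀` only. -/
theorem l_jet (D m A : ℕ) {C η₀ : ℝ} (hC : 1 ≤ C) (hη₀ : 0 < η₀) :
    ∃ η : ℝ, 0 < η ∧ η ≤ η₀ ∧ ∀ (Q : Type) [Fintype Q] (ρ : Q → Q → ℝ) (T : Type) (X : Q → Set T)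
      (V : Type) [NormedAddCommGroup V] [NormedSpace ℝ V] (b : Q → T → V)
      (L : Q → T → Q → (Fin D → ℝ) →L[ℝ] V),
      (∀ p q, 0 ≤ ρ p q) → (∀ p q, ρ p q = ρ q p) → (∀ p, ρ p p ≤ 1) →
      (∀ (p : Q) (t : ℝ), 1 ≤ t → ((univ.filter fun q => ρ q p ≤ t).card : ℝ) ≤ C * t ^ A) →
      (∀ p, ∀ x ∈ X p, ∀ q v, ‖L p x q v‖ ≤ C / (1 + ρ q p) ^ (2 * A + 3) * ‖v‖) →
      (∀ p, ∀ x ∈ X p, ∃ I : Finset (Fin D), I.card = m + 1 ∧
        ∀ v : Fin D → ℝ, (∀ i, i ∉ I → v i = 0) → ‖v‖ ≤ C * ‖L p x p v‖) →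
      (∀ p, ∃ s : Finset T, ↑s ⊆ X p ∧ (s.card : ℝ) ≤ C / η ^ m ∧ ∀ x ∈ X p, ∃ y ∈ s,
        ∀ c : Q → Fin D → ℝ, (∀ q, ‖c q‖ ≤ 1) →
          ‖b p y + ∑ q, L p y q (c q)‖ ≤ ‖b p x + ∑ q, L p x q (c q)‖ + η) →
      ∃ c : Q → Fin D → ℝ, (∀ q, ‖c q‖ ≤ 1) ∧
        ∀ p, ∀ x ∈ X p, η ≤ ‖b p x + ∑ q, L p x q (c q)‖ := by
  obtain ⟨η, h1, h2, h⟩ := l_core D m A hC hη₀
  refine ⟨η, h1, h2, fun Q _ ρ T X V _ _ b L h0 hs h3 hp ht hl hn =>
    h Q ρ T X V b (fun p x q v => L p x q v) h0 hs h3 hp (fun p x hx q v hv => ?_)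
      (fun p x hx => ?_) hn⟩
  · have := h0 q p
    exact (ht p x hx q v).trans (mul_le_of_le_one_right (by positivity) hv)
  · obtain ⟨I, hI, hL⟩ := hl p x hx
    refine ⟨I, hI, fun v v' _ _ hh => ?_⟩
    rw [← map_sub]
    exact hL _ fun i hi => by simp [hh i hi]

end Pool.Agent.Lib.MP_ccffa6_gt
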