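import Mathlib

/-! Separated sets, nets and packing bounds. -/

open Finset

namespace Pool.Agent.Lib.MP_ccffa6_gt

/-- A maximal separated finite subset, for an arbitrary symmetric closeness relation. -/
theorem l_exists_net {T : Type} (S : Set T) (cl : T → T → Prop) (hs : ∀ x y, cl x y → cl y x)
    (hr : ∀ x, cl x x) (B : ℝ)
    (hB : ∀ s : Finset T, ↑s ⊆ S → (∀ x ∈ s, ∀ y ∈ s, x ≠ y → ¬cl x y) → (s.card : ℝ) ≤ B) :
    ∃ s : Finset T, ↑s ⊆ S ∧ (∀ x ∈ s, ∀ y ∈ s, x ≠ y → ¬cl x y) ∧ (s.card : ℝ) ≤ B ∧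
      ∀ x ∈ S, ∃ y ∈ s, cl x y := by
  classical
  let P : ℕ → Prop := fun n => ∃ s : Finset T, ↑s ⊆ S ∧ (∀ x ∈ s, ∀ y ∈ s, x ≠ y → ¬cl x y) ∧
    s.card = n
  have h0 : P 0 := ⟨∅, by simp, by simp, rfl⟩
  obtain ⟨s, h1, h2, h3⟩ := Nat.findGreatest_spec (P := P) (n := ⌊B⌋₊) (Nat.zero_le _) h0
  refine ⟨s, h1, h2, hB s h1 h2, fun x hx => ?_⟩
  by_contra hc
  have hc' : ∀ y ∈ s, ¬cl x y := fun y hy h => hc ⟨y, hy, h⟩
  have hxs : x ∉ s := fun h => hc' x h (hr x)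
  have a1 : (↑(insert x s) : Set T) ⊆ S := by
    rw [coe_insert]; exact Set.insert_subset hx h1
  have a2 : ∀ y ∈ insert x s, ∀ z ∈ insert x s, y ≠ z → ¬cl y z := by
    intro y hy z hz hne
    rcases mem_insert.1 hy with e | hy <;> rcases mem_insert.1 hz with e' | hz
    · exact absurd (e.trans e'.symm) hne
    · exact e ▸ hc' z hz
    · exact fun h => hc' y hy (hs _ _ (e' ▸ h))
    · exact h2 y hy z hz hne
  exact Nat.findGreatest_is_greatest (P := P) (n := ⌊B⌋₊) (k := (insert x s).card)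
    (by rw [card_insert_of_notMem hxs, h3]; exact Nat.lt_succ_self _)
    (Nat.le_floor (hB _ a1 a2)) ⟨_, a1, a2, rfl⟩

/-- Pigeonhole in a box: two different points differ by more than `h i` in some coordinate. -/
theorem l_card_box {T ι : Type} [Fintype ι] (s : Finset T) (f : T → ι → ℝ) (a h : ι → ℝ)
    (ha : ∀ i, 0 ≤ a i) (hh : ∀ i, 0 < h i) (hf : ∀ x ∈ s, ∀ i, |f x i| ≤ a i)
    (hsep : ∀ x ∈ s, ∀ y ∈ s, x ≠ y → ∃ i, h i ≤ |f x i - f y i|) :
    (s.card : ℝ) ≤ ∏ i, (2 * a i / h i + 2) := by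
  classical
  have hn : ∀ x ∈ s, ∀ i, 0 ≤ (f x i + a i) / h i := fun x hx i =>
    div_nonneg (by linarith [(abs_le.1 (hf x hx i)).1]) (hh i).le
  have h1 : s.card ≤ (Fintype.piFinset fun i => range (⌊2 * a i / h i⌋₊ + 1)).card := by
    refine card_le_card_of_injOn (fun x i => ⌊(f x i + a i) / h i⌋₊) (fun x hx => ?_)
      fun x hx y hy e => ?_
    · refine mem_coe.2 (Fintype.mem_piFinset.2 fun i => mem_range.2 (Nat.lt_succ_of_le ?_))
      exact Nat.floor_mono (div_le_div_of_nonneg_right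
        (by linarith [(abs_le.1 (hf x hx i)).2]) (hh i).le)
    · by_contra hne
      obtain ⟨i, hi⟩ := hsep x hx y hy hne
      have e1 : (⌊(f x i + a i) / h i⌋₊ : ℝ) = ⌊(f y i + a i) / h i⌋₊ := by
        exact_mod_cast congrFun e i
      have b1 := Nat.floor_le (hn x hx i)
      have b2 := Nat.floor_le (hn y hy i)
      have b3 := Nat.lt_floor_add_one ((f x i + a i) / h i)
      have b4 := Nat.lt_floor_add_one ((f y i + a i) / h i)
      have : |(f x i + a i) / h i - (f y i + a i) / h i| < 1 := abs_lt.2 ⟨by linarith, by linarith⟩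
      rw [← sub_div, abs_div, abs_of_pos (hh i), div_lt_one (hh i),
        add_sub_add_right_eq_sub] at this
      linarith
  rw [Fintype.card_piFinset] at h1
  refine (Nat.cast_le.2 h1).trans ?_
  rw [Nat.cast_prod]
  refine prod_le_prod (fun i _ => Nat.cast_nonneg _) fun i _ => ?_
  have := Nat.floor_le (div_nonneg (mul_nonneg zero_le_two (ha i)) (hh i).le)
  rw [card_range]
  push_cast
  linarith

open MeasureTheory Metric in
/-- Packing in a finite dimensional normed space. -/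
theorem l_card_ball {T F : Type} [NormedAddCommGroup F] [NormedSpace ℝ F] [FiniteDimensional ℝ F]
    (s : Finset T) (f : T → F) {a h : ℝ} (ha : 0 ≤ a) (hh : 0 < h) (hf : ∀ x ∈ s, ‖f x‖ ≤ a)
    (hsep : ∀ x ∈ s, ∀ y ∈ s, x ≠ y → h ≤ ‖f x - f y‖) :
    (s.card : ℝ) ≤ (2 * a / h + 1) ^ Module.finrank ℝ F := by
  borelize F
  let μ : Measure F := Measure.addHaar
  have hδ : 0 < h / 2 := by positivity
  have hρ : 0 < a + h / 2 := by positivity
  have D : Set.Pairwise (s : Set T) (Function.onFun Disjoint fun c => ball (f c) (h / 2)) := by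
    intro c hc d hd hcd
    apply ball_disjoint_ball
    rw [dist_eq_norm]
    linarith [hsep c hc d hd hcd]
  have hsub : ⋃ c ∈ s, ball (f c) (h / 2) ⊆ ball (0 : F) (a + h / 2) := by
    refine Set.iUnion₂_subset fun x hx => ball_subset_ball' ?_
    rw [dist_zero_right]
    linarith [hf x hx]
  have I := measure_mono (μ := μ) hsub
  rw [measure_biUnion_finset D fun c _ => measurableSet_ball] at I
  simp only [μ.addHaar_ball_of_pos _ hδ, μ.addHaar_ball_of_pos _ hρ, sum_const, nsmul_eq_mul,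
    ← mul_assoc] at I
  have J := ENNReal.toReal_le_of_le_ofReal (pow_nonneg hρ.le _)
    ((ENNReal.mul_le_mul_iff_left (measure_ball_pos _ _ zero_lt_one).ne'
      measure_ball_lt_top.ne).1 I)
  rw [ENNReal.toReal_mul, ENNReal.toReal_natCast, ENNReal.toReal_ofReal (pow_nonneg hδ.le _),
    ← le_div_iff₀ (pow_pos hδ _), ← div_pow] at J
  rwa [show 2 * a / h + 1 = (a + h / 2) / (h / 2) by field_simp]

/-- A net of a set `S` which is controlled by a bounded map `f` to a space of dimension `m`. -/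
theorem l_net_of_map {T F : Type} [NormedAddCommGroup F] [NormedSpace ℝ F] [FiniteDimensional ℝ F]
    (S : Set T) (f : T → F) {a h : ℝ} (ha : 0 ≤ a) (hh : 0 < h) (hf : ∀ x ∈ S, ‖f x‖ ≤ a) :
    ∃ s : Finset T, ↑s ⊆ S ∧ (s.card : ℝ) ≤ (2 * a / h + 1) ^ Module.finrank ℝ F ∧
      ∀ x ∈ S, ∃ y ∈ s, ‖f x - f y‖ < h := by
  obtain ⟨s, h1, -, h3, h4⟩ := l_exists_net S (fun x y => ‖f x - f y‖ < h)
    (fun x y e => by rwa [norm_sub_rev]) (fun x => by simpa using hh) _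
    fun s h1 h2 => l_card_ball s f ha hh (fun x hx => hf x (h1 hx))
      fun x hx y hy e => not_lt.1 (h2 x hx y hy e)
  exact ⟨s, h1, h3, h4⟩

/-- A separated net of a bounded set with its packing bound, at scale `r`. -/
theorem l_exists_centres {F : Type} [NormedAddCommGroup F] [NormedSpace ℝ F]
    [FiniteDimensional ℝ F] {S : Set F} (hS : Bornology.IsBounded S) {r : ℝ} (hr : 0 < r) :
    ∃ s : Finset F, ↑s ⊆ S ∧ (∀ x ∈ S, ∃ p ∈ s, ‖x - p‖ < r) ∧ ∀ (x : F) (t : ℝ), 1 ≤ t →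
      ((s.filter fun q => ‖q - x‖ / r ≤ t).card : ℝ) ≤
        3 ^ Module.finrank ℝ F * t ^ Module.finrank ℝ F := by
  obtain ⟨a, ha, hS⟩ := hS.exists_pos_norm_le
  obtain ⟨s, h1, h2, -, h4⟩ := l_exists_net S (fun x y => ‖x - y‖ < r)
    (fun x y e => by rwa [norm_sub_rev]) (fun x => by simpa using hr) _
    fun s h1 h2 => l_card_ball s id ha.le hr (fun x hx => hS x (h1 hx))
      fun x hx y hy e => not_lt.1 (h2 x hx y hy e)
  refine ⟨s, h1, h4, fun x t ht => ?_⟩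
  refine (l_card_ball _ (fun q => q - x) (a := t * r) (by positivity) hr
    (fun q hq => (div_le_iff₀ hr).1 (mem_filter.1 hq).2) fun y hy z hz e => ?_).trans ?_
  · rw [sub_sub_sub_cancel_right]
    exact not_lt.1 (h2 y (mem_filter.1 hy).1 z (mem_filter.1 hz).1 e)
  · rw [← mul_pow, mul_div_assoc, mul_div_assoc, div_self hr.ne']
    exact pow_le_pow_left₀ (by positivity) (by linarith) _

theorem l_sum_sq (N : ℕ) : ∑ j ∈ range (N + 1), 1 / ((j : ℝ) + 1) ^ 2 ≤ 2 - 1 / ((N : ℝ) + 1) := by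
  induction N with
  | zero => norm_num
  | succ N ih =>
    rw [sum_range_succ]
    push_cast
    have h1 : (0 : ℝ) < N + 1 := by positivity
    have : 1 / ((N : ℝ) + 1 + 1) ^ 2 ≤ 1 / (N + 1) - 1 / (N + 1 + 1) := by
      rw [div_sub_div _ _ h1.ne' (by positivity), div_le_div_iff₀ (by positivity) (by positivity)]
      nlinarith
    linarith

/-- Polynomial packing makes polynomial tails summable. -/
theorem l_sum_tail {Q : Type} (s : Finset Q) (ρ : Q → ℝ) (h0 : ∀ q ∈ s, 0 ≤ ρ q) {C : ℝ} {A : ℕ}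
    (hp : ∀ t : ℝ, 1 ≤ t → ((s.filter fun q => ρ q ≤ t).card : ℝ) ≤ C * t ^ A) :
    ∑ q ∈ s, 1 / (1 + ρ q) ^ (A + 2) ≤ 2 * C := by
  classical
  have hC : 0 ≤ C := by simpa using (Nat.cast_nonneg _).trans (hp 1 le_rfl)
  obtain ⟨N, hN⟩ : ∃ N : ℕ, ∀ q ∈ s, ⌊ρ q⌋₊ ∈ range (N + 1) :=
    ⟨s.sup fun q => ⌊ρ q⌋₊, fun q hq =>
      mem_range.2 (Nat.lt_succ_of_le (le_sup (f := fun q => ⌊ρ q⌋₊) hq))⟩
  rw [← sum_fiberwise_of_maps_to hN]
  have key : ∀ j ∈ range (N + 1), ∑ q ∈ s with ⌊ρ q⌋₊ = j, 1 / (1 + ρ q) ^ (A + 2) ≤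
      C * (1 / ((j : ℝ) + 1) ^ 2) := fun j _ => by
    have hj : (0 : ℝ) < j + 1 := by positivity
    have a1 : ∑ q ∈ s with ⌊ρ q⌋₊ = j, 1 / (1 + ρ q) ^ (A + 2) ≤
        ∑ q ∈ s with ⌊ρ q⌋₊ = j, 1 / ((j : ℝ) + 1) ^ (A + 2) := sum_le_sum fun q hq => by
      obtain ⟨h1, h2⟩ := mem_filter.1 hq
      have := Nat.floor_le (h0 q h1)
      rw [h2] at this
      exact one_div_le_one_div_of_le (by positivity) (pow_le_pow_left₀ hj.le (by linarith) _)
    have a2 : ((s.filter fun q => ⌊ρ q⌋₊ = j).card : ℝ) ≤ C * ((j : ℝ) + 1) ^ A := by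
      refine le_trans (Nat.cast_le.2 (card_le_card fun q hq => ?_))
        (hp _ (by linarith [Nat.cast_nonneg (α := ℝ) j]))
      obtain ⟨h1, h2⟩ := mem_filter.1 hq
      exact mem_filter.2 ⟨h1, h2 ▸ (Nat.lt_floor_add_one (ρ q)).le⟩
    rw [sum_const, nsmul_eq_mul] at a1
    refine a1.trans ((mul_le_mul_of_nonneg_right a2 (by positivity)).trans (le_of_eq ?_))
    field_simp
    ring
  refine (sum_le_sum key).trans ?_
  rw [← mul_sum, mul_comm]
  have : (0 : ℝ) ≤ 1 / ((N : ℝ) + 1) := by positivity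
  exact mul_le_mul_of_nonneg_right (by linarith [l_sum_sq N]) hC

end Pool.Agent.Lib.MP_ccffa6_gt
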